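import Pool.Agent.MP_e4c747_an.Mg.Main

set_option autoImplicit false

open Filter MeasureTheory

namespace Pool.Agent.Results.MP_e4c747_an.CubicAverages

/-- In a uniquely ergodic system with the rigidity condition (R) the cubic averages of every
continuous function converge, uniformly in the starting point, to the integral. -/
theorem result (X : Type*) [MetricSpace X] [CompactSpace X] [MeasurableSpace X] [BorelSpace X]
    (T : X ≃ₜ X) (μ : Measure X) [IsProbabilityMeasure μ]
    (hμ : ∀ ν : Measure X, IsProbabilityMeasure ν → (ν.map T = ν ↔ ν = μ))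
    (q : ℕ → ℕ) (hq : StrictMono q) (hpos : ∀ n, 0 < q n)
    (hcop : ∀ n, Nat.Coprime (q n) (q (n + 1)))
    (hR : ∀ ε : ℝ, 0 < ε → ∀ᶠ n in atTop, ∀ t : ℕ, (t : ℝ) < (q (n + 1) : ℝ) ^ (4 / 5 : ℝ) →
      ∀ x : X, dist x (T^[t * q n] x) ≤ ε)
    (f : C(X, ℂ)) :
    TendstoUniformly
      (fun (N : ℕ) (x : X) => (N : ℂ)⁻¹ * ∑ i ∈ Finset.range N, f (T^[i ^ 3] x))
      (fun _ => ∫ y, f y ∂μ) atTop :=
  Pool.Agent.MP_e4c747_an.cubic_uniform T.continuous μ (fun ν h h' => (hμ ν h).1 h') q hq hpos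
    hcop hR f

end Pool.Agent.Results.MP_e4c747_an.CubicAverages
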